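import Pool.Agent.Lib.MP_b5021c_nt.IfaceK1

/-!
# Module LOW of project B5

A complex multi-affine polynomial without zeros in the open polydisc satisfies
`|p(w)| ≥ |p(0)| ∏ (1 - |w_i|)`.
-/

namespace Pool.Agent.MP_b5021c_nt.K.H23

open Pool.Agent.MP_b5021c_nt

/-- Value of a multi-affine polynomial. -/
noncomputable def ev {ι : Type} [Fintype ι] [DecidableEq ι] (p : Finset ι → ℂ) (w : ι → ℂ) : ℂ :=
  ∑ S : Finset ι, p S * ∏ i ∈ S, w i

theorem ev_update {ι : Type} [Fintype ι] [DecidableEq ι] (p : Finset ι → ℂ) (w : ι → ℂ) (i : ι)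
    (z : ℂ) : ev p (Function.update w i z) = (∑ S ∈ Finset.univ.filter (fun S : Finset ι => i ∉ S),
      p S * ∏ j ∈ S, w j) + z * (∑ S ∈ Finset.univ.filter (fun S : Finset ι => i ∈ S),
      p S * ∏ j ∈ S.erase i, w j) := by
  unfold ev
  rw [← Finset.sum_filter_add_sum_filter_not Finset.univ (fun S : Finset ι => i ∉ S)]
  congr 1
  · refine Finset.sum_congr rfl fun S hS => ?_
    have hi : i ∉ S := (Finset.mem_filter.mp hS).2
    congr 1
    refine Finset.prod_congr rfl fun j hj => ?_
    have : j ≠ i := fun h => hi (h ▸ hj)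
    rw [Function.update_of_ne this]
  · have hf : (Finset.univ.filter (fun S : Finset ι => ¬ i ∉ S))
        = Finset.univ.filter (fun S : Finset ι => i ∈ S) := by
      ext S
      simp
    rw [hf, Finset.mul_sum]
    refine Finset.sum_congr rfl fun S hS => ?_
    have hi : i ∈ S := (Finset.mem_filter.mp hS).2
    rw [← Finset.mul_prod_erase S _ hi, Function.update_self]
    have h2 : ∏ j ∈ S.erase i, Function.update w i z j = ∏ j ∈ S.erase i, w j := by
      refine Finset.prod_congr rfl fun j hj => ?_
      rw [Function.update_of_ne (Finset.ne_of_mem_erase hj)]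
    rw [h2]
    ring

theorem step {ι : Type} [Fintype ι] [DecidableEq ι] (p : Finset ι → ℂ)
    (hp : ∀ w : ι → ℂ, (∀ i, ‖w i‖ < 1) → ev p w ≠ 0) (w : ι → ℂ) (hw : ∀ i, ‖w i‖ < 1) (i : ι) :
    ‖ev p (Function.update w i 0)‖ * (1 - ‖w i‖) ≤ ‖ev p w‖ := by
  set A := ∑ S ∈ Finset.univ.filter (fun S : Finset ι => i ∉ S), p S * ∏ j ∈ S, w j with hA
  set B := ∑ S ∈ Finset.univ.filter (fun S : Finset ι => i ∈ S), p S * ∏ j ∈ S.erase i, w j with hB
  have h0 : ev p (Function.update w i 0) = A := by
    rw [ev_update, zero_mul, add_zero]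
  have h1 : ev p w = A + w i * B := by
    have h := ev_update p w i (w i)
    rwa [Function.update_eq_self] at h
  have hBA : ‖B‖ ≤ ‖A‖ := by
    by_contra hlt
    push Not at hlt
    have hB0 : B ≠ 0 := by
      intro h
      rw [h, norm_zero] at hlt
      exact absurd hlt (not_lt.mpr (norm_nonneg _))
    refine hp (Function.update w i (-A / B)) ?_ ?_
    · intro j
      by_cases hj : j = i
      · subst hj
        rw [Function.update_self, norm_div, norm_neg]
        exact (div_lt_one (norm_pos_iff.mpr hB0)).mpr hlt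
      · rw [Function.update_of_ne hj]
        exact hw j
    · rw [ev_update, ← hA, ← hB]
      field_simp
      ring
  rw [h0, h1]
  have h2 : ‖A‖ - ‖w i‖ * ‖B‖ ≤ ‖A + w i * B‖ := by
    have h3 := norm_sub_norm_le A (-(w i * B))
    rw [norm_neg, norm_mul, sub_neg_eq_add] at h3
    exact h3
  nlinarith [norm_nonneg (w i), mul_le_mul_of_nonneg_left hBA (norm_nonneg (w i))]

theorem low : LowS := by
  intro ι _ _ p hp w hw
  have hp' : ∀ w : ι → ℂ, (∀ i, ‖w i‖ < 1) → ev p w ≠ 0 := hp
  have key : ∀ T : Finset ι, ‖ev p (fun j => if j ∈ T then 0 else w j)‖ * ∏ i ∈ T, (1 - ‖w i‖)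
      ≤ ‖ev p w‖ := by
    intro T
    induction T using Finset.induction_on with
    | empty => simp
    | insert i T hi ih =>
      refine le_trans ?_ ih
      rw [Finset.prod_insert hi, ← mul_assoc]
      refine mul_le_mul_of_nonneg_right ?_ (Finset.prod_nonneg fun j _ => by linarith [hw j])
      have h := step p hp' (fun j => if j ∈ T then 0 else w j) (by
        intro j
        by_cases hj : j ∈ T
        · simp [hj]
        · simp [hj, hw j]) i
      have h4 : Function.update (fun j => if j ∈ T then 0 else w j) i 0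
          = fun j => if j ∈ insert i T then (0 : ℂ) else w j := by
        funext j
        by_cases hj : j = i
        · subst hj
          simp
        · rw [Function.update_of_ne hj]
          simp [hj]
      rw [h4] at h
      simpa [hi] using h
  have h := key Finset.univ
  have h5 : ev p (fun j => if j ∈ (Finset.univ : Finset ι) then (0 : ℂ) else w j) = p ∅ := by
    unfold ev
    rw [Finset.sum_eq_single ∅]
    · simp
    · intro S _ hS
      obtain ⟨j, hj⟩ := Finset.nonempty_iff_ne_empty.mpr hS
      rw [Finset.prod_eq_zero hj (by simp), mul_zero]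
    · simp
  rw [h5] at h
  exact h

end Pool.Agent.MP_b5021c_nt.K.H23
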